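import Pool.Agent.Helper76.PC.Stmts

/-!
MP_c33217_co: module CP. Contraction of a vertex of degree two preserves the number of perfect
matchings.
-/

namespace Pool.Agent.Helper76.PC

open Finset

theorem cp_ext {G H : Gr} (hV : G.V = H.V) (hN : ∀ x, G.N x = H.N x) : G = H := by
  cases G; cases H
  simp only at hV hN
  subst hV
  obtain rfl := funext hN
  rfl

theorem cp_delN (G : Gr) (v x : ℕ) : (del G v).N x = if x = v then ∅ else (G.N x).erase v := rfl

theorem cp_delV (G : Gr) (v : ℕ) : (del G v).V = G.V.erase v := rfl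

theorem cp_bside {G : Gr} {v a b : ℕ} (hv : G.N v = {a, b}) : side a ≠ side v ∧ side b ≠ side v := by
  constructor
  · exact fun h => G.bip v a (by rw [hv]; simp) h.symm
  · exact fun h => G.bip v b (by rw [hv]; simp) h.symm

theorem cp_side_eq {G : Gr} {v a b : ℕ} (hv : G.N v = {a, b}) : side a = side b := by
  have h := cp_bside hv
  revert h
  cases side a <;> cases side b <;> cases side v <;> simp

theorem cp_notmem {G : Gr} {v a b : ℕ} (hv : G.N v = {a, b}) : b ∉ G.N a := fun h =>
  G.bip a b h (cp_side_eq hv)

/-- the common form of the smaller graphs -/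
theorem cp_eq1 {G H : Gr} {v a b : ℕ} (hv : G.N v = {a, b}) (_hab : a ≠ b) (hc : IsContr G H v a b)
    (x : ℕ) : del (del H a) x = del (del (del (del G v) b) a) x := by
  apply cp_ext
  · simp only [cp_delV, hc.1]
  · intro y
    simp only [cp_delN, hc.2, contrN]
    by_cases hyx : y = x
    · simp [hyx]
    simp only [hyx, if_false]
    by_cases hya : y = a
    · simp [hya]
    simp only [hya, if_false]
    by_cases hyb : y = b
    · simp [hyb]
    simp only [hyb, if_false, or_false]
    by_cases hyv : y = v
    · simp [hyv]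
    simp only [hyv, if_false]
    have hvy : v ∉ G.N y := by
      intro h
      have h1 := G.symm y v h
      rw [hv] at h1
      simp only [mem_insert, mem_singleton] at h1
      rcases h1 with h1 | h1
      · exact hya h1
      · exact hyb h1
    rw [erase_eq_of_notMem hvy]
    by_cases hb : b ∈ G.N y
    · rw [if_pos hb, erase_insert_eq_erase]
    · rw [if_neg hb, erase_eq_of_notMem hb]

theorem cp_swap (G : Gr) (v a b : ℕ) (x : ℕ) :
    del (del (del (del G v) a) b) x = del (del (del (del G v) b) a) x := by
  apply cp_ext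
  · simp only [cp_delV]
    rw [erase_right_comm (a := a) (b := b)]
  · intro y
    simp only [cp_delN]
    by_cases hyx : y = x
    · simp [hyx]
    simp only [hyx, if_false]
    by_cases hya : y = a
    · simp [hya]
    by_cases hyb : y = b
    · simp [hyb]
    simp only [hya, hyb, if_false]
    by_cases hyv : y = v
    · simp [hyv]
    simp only [hyv, if_false]
    rw [erase_right_comm (a := a) (b := b)]

theorem cp_half (h : ST_EXP) {G : Gr} {v a b : ℕ} (hv : G.N v = {a, b}) (hab : a ≠ b) :
    P (del (del G v) b) = ∑ x ∈ (G.N a).erase v, P (del (del (del (del G v) b) a) x) := by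
  have hav : v ∈ G.N a := G.symm v a (by rw [hv]; simp)
  have haV : a ∈ G.V := G.mem a v hav
  have hne : a ≠ v := by
    rintro rfl
    exact G.bip a a hav rfl
  rw [h (del (del G v) b) a (by
    rw [cp_delV, cp_delV]
    simp only [mem_erase]
    exact ⟨hab, hne, haV⟩)]
  have hN : (del (del G v) b).N a = (G.N a).erase v := by
    simp only [cp_delN, hab, hne, if_false]
    exact erase_eq_of_notMem (fun h => cp_notmem hv (mem_erase.1 h).2)
  rw [hN]

theorem st_CP (h : ST_EXP) : ST_CP := by
  intro G H v a b hv hab _ hc
  have hva : a ∈ G.N v := by rw [hv]; simp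
  have hvb : b ∈ G.N v := by rw [hv]; simp
  have hvV : v ∈ G.V := G.mem v a hva
  have hav : v ∈ G.N a := G.symm v a hva
  have hbv : v ∈ G.N b := G.symm v b hvb
  have haV : a ∈ G.V := G.mem a v hav
  have hne : a ≠ v := by
    rintro rfl
    exact G.bip a a hav rfl
  have hv' : G.N v = {b, a} := by rw [hv, pair_comm]
  rw [h G v hvV, hv, sum_pair hab]
  rw [cp_half h hv hab, cp_half h hv' hab.symm]
  have haH : a ∈ H.V := by
    rw [hc.1]
    simp only [mem_erase]
    exact ⟨hab, hne, haV⟩
  rw [h H a haH]
  have hNH : H.N a = (G.N a).erase v ∪ (G.N b).erase v := by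
    rw [hc.2, contrN]
    rw [if_neg (by simp [hne, hab]), if_pos rfl, erase_union_distrib]
  have hdis : Disjoint ((G.N a).erase v) ((G.N b).erase v) := by
    rw [disjoint_left]
    intro y h1 h2
    simp only [mem_erase] at h1 h2
    exact h1.1 (G.c4 a b hab y v h1.2 h2.2 hav hbv)
  rw [hNH, sum_union hdis, add_comm]
  congr 1
  · exact sum_congr rfl fun x _ => by rw [cp_eq1 hv hab hc]
  · exact sum_congr rfl fun x _ => by rw [cp_eq1 hv hab hc, cp_swap]

end Pool.Agent.Helper76.PC
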